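import Mathlib

set_option autoImplicit false

open Filter Set
open scoped Topology ContDiff

namespace Pool.Agent.Results.MP_83d7ff_an.Cells

/-- Euclidean `n`-space. -/
abbrev E (n : ℕ) : Type := EuclideanSpace ℝ (Fin n)

variable {n : ℕ}

/-- Polynomials of degree at most two. -/
def IsQuad (q : E n → ℝ) : Prop :=
  ∃ (B : E n →L[ℝ] E n →L[ℝ] ℝ) (b : E n →L[ℝ] ℝ) (c : ℝ), ∀ x, q x = B x x + b x + c

/-- Finite intersections of closed half-spaces. -/
def IsPolyhedron (P : Set (E n)) : Prop :=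
  ∃ H : Set ((E n →L[ℝ] ℝ) × ℝ), H.Finite ∧ (∀ m ∈ H, m.1 ≠ 0) ∧ P = {x | ∀ m ∈ H, m.1 x ≤ m.2}

/-- Piecewise quadratic functions. -/
def PQ (f : E n → ℝ) : Prop :=
  Continuous f ∧ ∃ S : Set (E n → ℝ), S.Finite ∧ (∀ q ∈ S, IsQuad q) ∧ ∀ x, ∃ q ∈ S, f x = q x

/-- Piecewise linear-quadratic functions. -/
def PLQ (f : E n → ℝ) : Prop :=
  ∃ S : Set (Set (E n)), S.Finite ∧ ⋃₀ S = univ ∧
    ∀ P ∈ S, IsPolyhedron P ∧ ∃ q, IsQuad q ∧ EqOn f q P

/-- Twice semidifferentiable at `x`. -/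
def TwiceSemidiff (f : E n → ℝ) (x : E n) : Prop :=
  ∃ g h : E n → ℝ,
    (∀ v, Tendsto (fun p : E n × ℝ => (f (x + p.2 • p.1) - f x) / p.2) (𝓝 v ×ˢ 𝓝[>] 0)
      (𝓝 (g v))) ∧
    ∀ w, Tendsto (fun p : E n × ℝ => (f (x + p.2 • p.1) - f x - p.2 * g p.1) / p.2 ^ 2)
      (𝓝 w ×ˢ 𝓝[>] 0) (𝓝 (h w))

abbrev T (n : ℕ) : Type := (E n →L[ℝ] E n →L[ℝ] ℝ) × (E n →L[ℝ] ℝ) × ℝ

noncomputable def ev (t : T n) (x : E n) : ℝ := t.1 x x + t.2.1 x + t.2.2

noncomputable def ga (t : T n) (x : E n) : E n →L[ℝ] ℝ := t.1 x + t.1.flip x + t.2.1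

lemma eva (t : T n) (x w : E n) (τ : ℝ) :
    ev t (x + τ • w) = ev t x + τ * ga t x w + τ ^ 2 * t.1 w w := by
  simp [ev, ga]
  ring

lemma ev1 (t : T n) (x w : E n) : ev t (x + w) = ev t x + ga t x w + t.1 w w := by
  simpa using eva t x w 1

lemma evs (s t : T n) (x : E n) : ev (s - t) x = ev s x - ev t x := by
  simp [ev]
  ring

lemma gas (s t : T n) (x w : E n) : ga (s - t) x w = ga s x w - ga t x w := by
  simp [ga]
  ring

lemma evc (t : T n) : ContDiff ℝ ω (ev t) := by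
  unfold ev
  fun_prop

lemma gen {ι : Type} {I : Set ι} (hI : I.Finite) (p : ι → E n → ℝ) (h : ∀ i, ContDiff ℝ ω (p i)) :
    Dense {y | ∀ i ∈ I, (∃ z, p i z ≠ 0) → p i y ≠ 0} := by
  refine (dense_biInter_of_isOpen (S := {i ∈ I | ∃ z, p i z ≠ 0}) (f := fun i => {y | p i y ≠ 0})
    (fun i _ => isOpen_ne_fun (h i).continuous continuous_const)
    (hI.subset (sep_subset _ _)).countable fun i hi x => ?_).mono
    fun y hy i hi hz => mem_iInter₂.1 hy i ⟨hi, hz⟩
  obtain ⟨z, hz⟩ := hi.2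
  refine mem_closure_iff_frequently.2 fun e => hz
    ((h i).analyticOnNhd.eqOn_zero_of_preconnected_of_eventuallyEq_zero isPreconnected_univ
      (mem_univ x) (e.mono fun y hy => not_not.1 hy) (mem_univ z))

lemma seg {ι : Type} (A : ι → ℝ → Prop) (h : ∀ t ∈ Icc (0 : ℝ) 1, ∃ i, ∀ᶠ u in 𝓝 t, A i u)
    (hu : ∀ t ∈ Icc (0 : ℝ) 1, ∀ i j, (∀ᶠ u in 𝓝 t, A i u) → (∀ᶠ u in 𝓝 t, A j u) → i = j) :
    ∃ i, A i 0 ∧ A i 1 := by
  choose k hk using fun t => (em (t ∈ Icc (0 : ℝ) 1)).elim (fun ht => (h t ht).imp fun _ h _ => h)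
    fun ht => (h 0 (by simp)).imp fun _ _ (h : t ∈ Icc (0 : ℝ) 1) => (ht h).elim
  have : k 0 = k 1 := isPreconnected_Icc.induction₂ (fun s t => k s = k t)
    (fun x hx => ((hk x hx).eventually_nhds.filter_mono nhdsWithin_le_nhds).mp
      (eventually_mem_nhdsWithin.mono fun y hy e => hu y hy _ _ e (hk y hy)))
    (fun _ _ _ _ _ _ => Eq.trans) (fun _ _ _ _ => Eq.symm) (by simp) (by simp)
  exact ⟨k 0, (hk 0 (by simp)).self_of_nhds, this ▸ (hk 1 (by simp)).self_of_nhds⟩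

lemma pick {ι α : Type} {I : Set ι} (hI : I.Finite) {l : Filter α} {A : ι → α → Prop} {i : ι}
    (h : ∀ u, ∃ j ∈ I, A j u) (h' : ∀ j ∈ I, j ≠ i → ∀ᶠ u in l, ¬A j u) : ∀ᶠ u in l, A i u := by
  have : ∀ᶠ u in l, ∀ j ∈ I, j ≠ i → ¬A j u := (eventually_all_finite hI).2 fun j hj => by
    by_cases e : j = i
    · simp [e]
    · exact (h' j hj e).mono fun _ h _ => h
  refine this.mono fun u hu => ?_
  obtain ⟨j, hj, e⟩ := h u
  by_contra c
  exact hu j hj (fun k => c (k ▸ e)) e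

lemma lc {F : E n × ℝ → ℝ} {g : E n → ℝ} (h : ∀ v, Tendsto F (𝓝 v ×ˢ 𝓝[>] 0) (𝓝 (g v))) :
    (∀ v, Tendsto (fun τ => F (v, τ)) (𝓝[>] 0) (𝓝 (g v))) ∧ Continuous g := by
  have k : ∀ v, Tendsto (fun τ => F (v, τ)) (𝓝[>] 0) (𝓝 (g v)) := fun v =>
    (h v).comp (tendsto_const_nhds.prodMk tendsto_id)
  refine ⟨k, continuous_iff_continuousAt.2 fun v =>
    (closed_nhds_basis _).tendsto_right_iff.2 fun V hV => ?_⟩
  exact ((h v).eventually hV.1).curry.mono fun w hw => hV.2.mem_of_tendsto (k w) hw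

def Hyp (t : T n) (x : E n) : Prop :=
  ∃ l : E n →L[ℝ] ℝ, l ≠ 0 ∧ ∀ w, l w = 0 → ev t (x + w) = 0

lemma hyp (t : T n) : ∃ M : Set ((E n →L[ℝ] ℝ) × ℝ), M.Finite ∧ (∀ m ∈ M, m.1 ≠ 0) ∧
    ((∃ z, ev t z ≠ 0) → ∀ x, Hyp t x → ∃ m ∈ M, m.1 x = m.2) := by
  by_cases h : ∃ x, Hyp t x
  swap
  · exact ⟨∅, finite_empty, by simp, fun _ x hx => (h ⟨x, hx⟩).elim⟩
  obtain ⟨y, l, l0, hl⟩ := h
  obtain ⟨e, he⟩ : ∃ e, l e = 1 := by
    obtain ⟨e, he⟩ : ∃ e, l e ≠ 0 := by
      by_contra! z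
      exact l0 (ContinuousLinearMap.ext z)
    exact ⟨(l e)⁻¹ • e, by simp [he]⟩
  set k := t.1.flip e + t.1 e - t.1 e e • l
  set c := -(t.2.1 e + t.1 e e * l y)
  have f : ∀ x, ev t x = (l x - l y) * (k x - c) := fun x => by
    have := eva t (y + (x - y - (l x - l y) • e)) e (l x - l y)
    rw [hl _ (by simp [he]), show y + (x - y - (l x - l y) • e) + (l x - l y) • e = x by module]
      at this
    simp [ga] at this
    simp [this, k, c]
    ring
  refine ⟨{m ∈ ({(l, l y), (k, c)} : Set _) | m.1 ≠ 0}, (toFinite _).subset (sep_subset _ _),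
    fun m hm => hm.2, fun ⟨z, hz⟩ x ⟨m, _, hm⟩ => ?_⟩
  have := hm 0 (map_zero _)
  rw [add_zero, f, mul_eq_zero, sub_eq_zero, sub_eq_zero] at this
  rcases this with h | h
  · exact ⟨(l, l y), ⟨by simp, l0⟩, h⟩
  · refine ⟨(k, c), ⟨by simp, fun k0 => hz ?_⟩, h⟩
    rw [f, ← h, show k = 0 from k0]
    simp

lemma key {f : E n → ℝ} (hf : Continuous f) {S : Set (T n)} (hS : S.Finite)
    (sel : ∀ x, ∃ s ∈ S, f x = ev s x) {x : E n} (h2 : TwiceSemidiff f x)
    (hx : ∀ s ∈ S, ∀ t ∈ S, s ≠ t → ¬Hyp (s - t) x)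
    (hz : ∀ s ∈ S, ∀ t ∈ S, s ≠ t → ev s x = ev t x → ∃ v, ga s x v - ga t x v ≠ 0) :
    ∃ s ∈ S, f x = ev s x ∧
      ∀ v, Tendsto (fun τ : ℝ => (f (x + τ • v) - f x) / τ) (𝓝[>] 0) (𝓝 (ga s x v)) := by
  obtain ⟨g, h, hg, hh⟩ := h2
  obtain ⟨g1, gc⟩ := lc hg
  obtain ⟨h1, hc⟩ := lc hh
  set I := {s ∈ S | f x = ev s x}
  have hI : I.Finite := hS.subset (sep_subset _ _)
  have a : ∀ w, ∃ s ∈ I, g w = ga s x w ∧ h w = s.1 w w := fun w => by
    obtain ⟨s, hs, e⟩ := (frequently_exists_finite hS).1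
      (Frequently.of_forall (f := 𝓝[>] (0 : ℝ)) fun τ => sel (x + τ • w))
    have c : ∀ {φ : ℝ → ℝ}, Continuous φ → Tendsto φ (𝓝[>] 0) (𝓝 (φ 0)) := fun h =>
      (h.tendsto 0).mono_left nhdsWithin_le_nhds
    have e0 : f x = ev s x := by
      simpa using tendsto_nhds_unique_of_frequently_eq (c (φ := fun τ => f (x + τ • w)) (by fun_prop))
        (c (φ := fun τ => ev s (x + τ • w)) ((evc s).continuous.comp (by fun_prop))) e
    have e' := e.and_eventually self_mem_nhdsWithin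
    have e1 : g w = ga s x w := by
      simpa using tendsto_nhds_unique_of_frequently_eq (g1 w)
        (c (φ := fun τ => ga s x w + τ * s.1 w w) (by fun_prop)) (e'.mono fun τ h => by
          have : τ ≠ 0 := h.2.ne'
          simp only [h.1, eva, e0]
          field_simp
          ring)
    refine ⟨s, ⟨hs, e0⟩, e1, tendsto_nhds_unique_of_frequently_eq (h1 w) tendsto_const_nhds
      (e'.mono fun τ h => ?_)⟩
    have : τ ≠ 0 := h.2.ne'
    simp only [h.1, eva, e0, e1]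
    field_simp
    ring
  obtain ⟨w, hw⟩ := (gen (hI.prod hI) (fun p v => ga p.1 x v - ga p.2 x v)
    fun p => by fun_prop).nonempty
  have w0 : ∀ s ∈ I, ∀ t ∈ I, s ≠ t → ga s x w - ga t x w ≠ 0 := fun s hs t ht e =>
    hw (s, t) ⟨hs, ht⟩ (hz s hs.1 t ht.1 e (hs.2.symm.trans ht.2))
  obtain ⟨s, hs, e, -⟩ := a w
  refine ⟨s, hs.1, hs.2, fun v => ?_⟩
  suffices g = ga s x from this ▸ g1 v
  refine Continuous.ext_on (gen (hI.prod hI) (fun p v =>
    (p.1 - p.2).1 (ga (p.1 - p.2) x w • v - ga (p.1 - p.2) x v • w)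
      (ga (p.1 - p.2) x w • v - ga (p.1 - p.2) x v • w)) fun p => by fun_prop) gc
    (ga s x).continuous fun v hv => ?_
  have av : ∀ r ∈ I, ∀ t ∈ I, ∀ u : ℝ, ga r x (w + u • (v - w)) = ga t x (w + u • (v - w)) →
      r.1 (w + u • (v - w)) (w + u • (v - w)) = t.1 (w + u • (v - w)) (w + u • (v - w)) →
      r = t := fun r hr t ht u e1 e2 => by
    by_contra c
    have l0 := w0 r hr t ht c
    rw [← gas] at l0
    rw [← sub_eq_zero, ← gas] at e1
    have e3 : (r - t).1 (w + u • (v - w)) (w + u • (v - w)) = 0 := sub_eq_zero.2 e2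
    have u0 : u ≠ 0 := by
      rintro rfl
      exact l0 (by simpa using e1)
    refine hv (r, t) ⟨hr, ht⟩ ?_ ?_
    · by_contra! z
      refine hx r hr.1 t ht.1 c ⟨ga (r - t) x, fun k => l0 (by rw [k]; rfl), fun y hy => ?_⟩
      have := z y
      simp only [hy, zero_smul, sub_zero, map_smul, ContinuousLinearMap.smul_apply, smul_eq_mul,
        mul_eq_zero, l0, false_or] at this
      rw [ev1, hy, this, evs, ← hr.2, ← ht.2]
      simp
    · have k : u • (ga (r - t) x w • v - ga (r - t) x v • w) =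
          ga (r - t) x w • (w + u • (v - w)) - ga (r - t) x (w + u • (v - w)) • w := by
        simp only [map_add, map_smul, map_sub, smul_eq_mul]
        module
      rw [e1, zero_smul, sub_zero] at k
      have := congrArg (fun y => (r - t).1 y y) k
      simp only [map_smul, ContinuousLinearMap.smul_apply, smul_eq_mul, e3, mul_zero,
        mul_eq_zero, u0, false_or] at this
      exact this
  obtain ⟨r, r0, r1⟩ := seg (fun r u => r ∈ I ∧ g (w + u • (v - w)) = ga r x (w + u • (v - w)) ∧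
    h (w + u • (v - w)) = r.1 (w + u • (v - w)) (w + u • (v - w))) (fun u _ => by
      obtain ⟨r, hr, k⟩ := a (w + u • (v - w))
      refine ⟨r, pick hI (fun u => (a _).imp fun _ h => ⟨h.1, h⟩) fun t ht c => ?_⟩
      have : IsClosed {u : ℝ | g (w + u • (v - w)) = ga t x (w + u • (v - w)) ∧
          h (w + u • (v - w)) = t.1 (w + u • (v - w)) (w + u • (v - w))} :=
        (isClosed_eq (by fun_prop) (by fun_prop)).inter (isClosed_eq (by fun_prop) (by fun_prop))
      exact mem_of_superset (this.isOpen_compl.mem_nhds fun k' =>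
        c (av t ht r hr u (k'.1.symm.trans k.1) (k'.2.symm.trans k.2))) fun _ h1 h2 => h1 h2.2)
    fun u _ r t hr ht => av r hr.self_of_nhds.1 t ht.self_of_nhds.1 u
      (hr.self_of_nhds.2.1.symm.trans ht.self_of_nhds.2.1)
      (hr.self_of_nhds.2.2.symm.trans ht.self_of_nhds.2.2)
  have : r = s := by
    by_contra c
    exact w0 r r0.1 s hs c (by rw [← e, sub_eq_zero]; simpa using r0.2.1.symm)
  simpa [this] using r1.2.1

lemma cell {f : E n → ℝ} (hf : Continuous f) {S : Set (T n)} (hS : S.Finite)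
    (sel : ∀ x, ∃ s ∈ S, f x = ev s x) (h2 : ∀ x, TwiceSemidiff f x) {y v : E n}
    (hx : ∀ u ∈ Icc (0 : ℝ) 1, ∀ s ∈ S, ∀ t ∈ S, s ≠ t → ¬Hyp (s - t) (y + u • v))
    (hy : ∀ s ∈ S, ∀ t ∈ S, s ≠ t → ev (s - t) y ≠ 0)
    (hv : ∀ s ∈ S, ∀ t ∈ S, (∃ z, ga (s - t) y z ^ 2 - 4 * ev (s - t) y * (s - t).1 z z ≠ 0) →
      ga (s - t) y v ^ 2 - 4 * ev (s - t) y * (s - t).1 v v ≠ 0) :
    ∃ s, f y = ev s y ∧ s ∈ S ∧ f (y + v) = ev s (y + v) := by
  have sr : ∀ u ∈ Icc (0 : ℝ) 1, ∀ s ∈ S, ∀ t ∈ S, s ≠ t → ev s (y + u • v) = ev t (y + u • v) →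
      ga s (y + u • v) v - ga t (y + u • v) v ≠ 0 := fun u hu s hs t ht c e k => by
    rw [← sub_eq_zero, ← evs, eva] at e
    have k' : ga (s - t) y v + 2 * u * (s - t).1 v v = 0 := by
      rw [← k, ← gas]
      simp [ga]
      ring
    have p0 := hy s hs t ht c
    refine hv s hs t ht ?_ (by
      linear_combination (ga (s - t) y v + 2 * u * (s - t).1 v v) * k' - 4 * (s - t).1 v v * e)
    by_contra! z
    have a0 : 2 * ev (s - t) y + u * ga (s - t) y v = 0 := pow_eq_zero_iff two_ne_zero |>.1 (by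
      linear_combination 4 * ev (s - t) y * e + u ^ 2 * z v)
    refine hx u hu s hs t ht c ⟨ga (s - t) y, fun k => p0 (by simpa [k] using a0), fun w hw => ?_⟩
    refine mul_left_cancel₀ (mul_ne_zero four_ne_zero p0) ?_
    have := z (u • v + w)
    rw [add_assoc, ev1]
    rw [map_add, map_smul, hw, smul_eq_mul] at this ⊢
    linear_combination (2 * ev (s - t) y + u * ga (s - t) y v) * a0 - this
  obtain ⟨s, s0, s1⟩ := seg (fun s u => s ∈ S ∧ f (y + u • v) = ev s (y + u • v)) (fun u hu => by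
      obtain ⟨s, hs, e, k⟩ := key hf hS sel (h2 _) (hx u hu) fun s hs t ht c e =>
        ⟨v, sr u hu s hs t ht c e⟩
      have d : ∀ w, (∀ t ∈ S, t ≠ s → ev t (y + u • v) = ev s (y + u • v) →
          ga t (y + u • v) w ≠ ga s (y + u • v) w) →
          ∀ᶠ τ in 𝓝[>] (0 : ℝ), f (y + u • v + τ • w) = ev s (y + u • v + τ • w) := fun w hw =>
        pick (A := fun s τ => f (y + u • v + τ • w) = ev s (y + u • v + τ • w)) hS
          (fun _ => sel _) fun t ht c => not_frequently.1 fun q => by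
            have c' : ∀ {φ : ℝ → ℝ}, Continuous φ → Tendsto φ (𝓝[>] 0) (𝓝 (φ 0)) := fun h =>
              (h.tendsto 0).mono_left nhdsWithin_le_nhds
            have e0 : f (y + u • v) = ev t (y + u • v) := by
              simpa using tendsto_nhds_unique_of_frequently_eq
                (c' (φ := fun τ => f (y + u • v + τ • w)) (by fun_prop))
                (c' (φ := fun τ => ev t (y + u • v + τ • w))
                  ((evc t).continuous.comp (by fun_prop))) q
            refine hw t ht c (e0.symm.trans e) (Eq.symm ?_)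
            simpa using tendsto_nhds_unique_of_frequently_eq (k w)
              (c' (φ := fun τ => ga t (y + u • v) w + τ * t.1 w w) (by fun_prop))
              ((q.and_eventually self_mem_nhdsWithin).mono fun τ h => by
                have : τ ≠ 0 := h.2.ne'
                rw [h.1, eva, e0]
                field_simp
                ring)
      have d1 := d v fun t ht c e => sub_ne_zero.1 (sr u hu t ht s hs c e)
      have d2 := d (-v) fun t ht c e => by
        simpa using sub_ne_zero.1 (sr u hu t ht s hs c e)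
      obtain ⟨ε, ε0, h⟩ := (nhdsGT_basis 0).eventually_iff.1 (d1.and d2)
      refine ⟨s, mem_of_superset (Ioo_mem_nhds (sub_lt_self u ε0) (lt_add_of_pos_right u ε0))
        fun τ hτ => ⟨hs, ?_⟩⟩
      rcases lt_trichotomy τ u with q | rfl | q
      · have := (h (x := u - τ) ⟨by linarith, by linarith [hτ.1]⟩).2
        rwa [show y + u • v + (u - τ) • -v = y + τ • v by module] at this
      · exact e
      · have := (h (x := τ - u) ⟨by linarith, by linarith [hτ.2]⟩).1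
        rwa [show y + u • v + (τ - u) • v = y + τ • v by module] at this)
    fun u hu s t hs ht => by
      by_contra c
      have k : ∀ r : T n, HasDerivAt (fun τ : ℝ => ev r (y + τ • v)) (ga r (y + u • v) v) u := by
        intro r
        simp only [eva]
        refine ((((hasDerivAt_id u).mul_const (ga r y v)).const_add (ev r y)).fun_add
          ((hasDerivAt_pow 2 u).mul_const (r.1 v v))).congr_deriv ?_
        simp [ga]
        ring
      exact sr u hu s hs.self_of_nhds.1 t ht.self_of_nhds.1 c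
        (hs.self_of_nhds.2.symm.trans ht.self_of_nhds.2) (sub_eq_zero.2 ((k s).unique
          ((k t).congr_of_eventuallyEq ((hs.and ht).mono fun _ h => h.1.2.symm.trans h.2.2))))
  exact ⟨s, by simpa using s0.2, s0.1, by simpa using s1.2⟩

lemma cvx {a b c u : ℝ} (ha : a < c) (hb : b < c) (hu : u ∈ Icc (0 : ℝ) 1) :
    a + u * (b - a) < c := by
  rcases le_total a b with h | h <;> nlinarith [hu.1, hu.2]

theorem result (n : ℕ) (f : E n → ℝ) (hf : PQ f) (h2 : ∀ x, TwiceSemidiff f x) : PLQ f := by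
  obtain ⟨hf, Q, hQ, hq, sel⟩ := hf
  have : ∀ q ∈ Q, ∃ t : T n, ev t = q := fun q h => by
    obtain ⟨B, b, c, e⟩ := hq q h
    exact ⟨(B, b, c), funext fun x => (e x).symm⟩
  choose! τ hτ using this
  set S := τ '' Q
  have hS : S.Finite := hQ.image τ
  replace sel : ∀ x, ∃ s ∈ S, f x = ev s x := fun x => by
    obtain ⟨q, h, e⟩ := sel x
    exact ⟨_, mem_image_of_mem τ h, by rwa [hτ q h]⟩
  have inj : ∀ s ∈ S, ∀ t ∈ S, s ≠ t → ∃ z, ev (s - t) z ≠ 0 := by
    rintro _ ⟨q, h, rfl⟩ _ ⟨r, h', rfl⟩ c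
    by_contra! z
    refine c (congrArg τ (funext fun x => ?_))
    simpa [evs, hτ q h, hτ r h', sub_eq_zero] using z x
  choose N N1 N2 N3 using hyp (n := n)
  set M := ⋃ p ∈ S ×ˢ S, N (p.1 - p.2)
  have hM : M.Finite := (hS.prod hS).biUnion fun _ _ => N1 _
  have M0 : ∀ m ∈ M, m.1 ≠ 0 := fun m hm => by
    obtain ⟨p, _, h⟩ := mem_iUnion₂.1 hm
    exact N2 _ m h
  set M' := M ∪ Neg.neg '' M
  have hM' : M'.Finite := hM.union (hM.image _)
  let H := fun y : E n => {m ∈ M' | m.1 y < m.2}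
  let P := fun K : Set ((E n →L[ℝ] ℝ) × ℝ) => {x : E n | ∀ m ∈ K, m.1 x ≤ m.2}
  set G := {y : E n | (∀ m ∈ M, m.1 y ≠ m.2) ∧ ∀ s ∈ S, ∀ t ∈ S, s ≠ t → ev (s - t) y ≠ 0}
  have dG : Dense G := by
    refine ((gen hM (fun m y => m.1 y - m.2) fun m => by fun_prop).inter_of_isOpen_left
      (gen (hS.prod hS) (fun p => ev (p.1 - p.2)) fun p => evc _) ?_).mono fun y hy =>
        ⟨fun m hm => sub_ne_zero.1 (hy.1 m hm ?_), fun s hs t ht c =>
          hy.2 (s, t) ⟨hs, ht⟩ (inj s hs t ht c)⟩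
    · simp only [setOf_forall]
      exact hM.isOpen_biInter fun m _ => isOpen_iInter_of_finite fun _ =>
        isOpen_ne_fun (by fun_prop) continuous_const
    · by_contra! z
      refine M0 m hm (ContinuousLinearMap.ext fun x => ?_)
      have := z 0
      have := z x
      simp at *
      linarith
  have fin : ((fun y => P (H y)) '' G).Finite := (hM'.finite_subsets.image P).subset (by
    rintro _ ⟨y, -, rfl⟩
    exact ⟨_, sep_subset _ _, rfl⟩)
  have cl : ∀ K, IsClosed (P K) := fun K => by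
    simp only [P, setOf_forall]
    exact isClosed_biInter fun m _ => isClosed_le (by fun_prop) continuous_const
  refine ⟨_, fin, ?_, ?_⟩
  · have : IsClosed (⋃₀ ((fun y => P (H y)) '' G)) := by
      rw [sUnion_eq_biUnion]
      refine fin.isClosed_biUnion ?_
      rintro _ ⟨y, -, rfl⟩
      exact cl _
    rw [← this.closure_eq]
    refine Dense.closure_eq (dG.mono fun y hy => ?_)
    exact mem_sUnion_of_mem (t := P (H y)) (fun m hm => hm.2.le) ⟨y, hy, rfl⟩
  rintro _ ⟨y, hy, rfl⟩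
  refine ⟨⟨H y, hM'.subset (sep_subset _ _), ?_, rfl⟩, ?_⟩
  · rintro m ⟨hm | ⟨k, hk, rfl⟩, -⟩
    · exact M0 m hm
    · exact neg_ne_zero.2 (M0 k hk)
  obtain ⟨s, hs, e⟩ := sel y
  refine ⟨ev s, ⟨_, _, _, fun _ => rfl⟩, fun x hx => ?_⟩
  set C := {x : E n | ∀ m ∈ H y, m.1 x < m.2}
  have oC : IsOpen C := by
    simp only [C, setOf_forall]
    exact (hM'.subset (sep_subset _ _)).isOpen_biInter fun m _ =>
      isOpen_lt (by fun_prop) continuous_const
  have cx : x ∈ closure C := by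
    refine mem_closure_of_tendsto (f := fun t : ℝ => x + t • (y - x)) (b := 𝓝[>] 0)
      ((Continuous.tendsto' (by fun_prop) 0 x (by simp)).mono_left nhdsWithin_le_nhds)
      (mem_of_superset (Ioo_mem_nhdsGT one_pos) fun t ht m hm => ?_)
    have := hx m hm
    simp only [map_add, map_smul, map_sub, smul_eq_mul]
    nlinarith [hm.2, ht.1, ht.2]
  refine (isClosed_eq hf (evc s).continuous).closure_subset_iff.2 (fun z hz => ?_)
    (closure_minimal ((gen (hS.prod hS) (fun p z => ga (p.1 - p.2) y (z - y) ^ 2 -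
      4 * ev (p.1 - p.2) y * (p.1 - p.2).1 (z - y) (z - y))
        fun p => by fun_prop).open_subset_closure_inter oC) isClosed_closure cx)
  obtain ⟨r, r0, hr, r1⟩ := cell hf hS sel h2 (y := y) (v := z - y) (fun u hu r hr t ht c k => by
      obtain ⟨m, hm, q⟩ := N3 _ (inj r hr t ht c) _ k
      have hm : m ∈ M := mem_iUnion₂.2 ⟨(r, t), ⟨hr, ht⟩, hm⟩
      simp only [map_add, map_smul, map_sub, smul_eq_mul] at q
      rcases lt_or_gt_of_ne (hy.1 m hm) with l | l
      · have := hz.1 m ⟨.inl hm, l⟩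
        exact (cvx l this hu).ne q
      · have := hz.1 (-m) ⟨.inr ⟨m, hm, rfl⟩, by simpa using l⟩
        have := cvx (neg_lt_neg l) this hu
        simp only [Prod.fst_neg, ContinuousLinearMap.neg_apply] at this
        linarith) hy.2
    fun r hr t ht ⟨w, hw⟩ => hz.2 (r, t) ⟨hr, ht⟩ ⟨w + y, by simpa using hw⟩
  have : r = s := by
    by_contra c
    exact hy.2 r hr s hs c (by rw [evs, ← r0, ← e, sub_self])
  simpa [this] using r1

end Pool.Agent.Results.MP_83d7ff_an.Cells
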